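import Pool.Agent.Q4.FId.Main

/-!
# Problem MP_93a4b1_al: the cohomology of the symmetric groups with coefficients in a finitely
generated `FI_d`-module need not be quasi-polynomial

There are a field `k`, an integer `d ≥ 1` and a finitely generated `FI_d`-module `V` over `k` such
that `n ↦ dim H^0(S_n, V_n)` agrees for large `n` with no quasi-polynomial, of any degree.
-/

namespace Pool.Agent.Results.MP_93a4b1_al.NotQuasiPolynomial

theorem result :
    ∃ (k : Type) (_ : Field k) (d : ℕ) (_ : 1 ≤ d) (V : Q4.FId.FIMod d k),
      Q4.FId.FinGen V ∧ ¬ Q4.FId.EventuallyQuasiPolynomial (Q4.FId.dimH V 0) :=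
  Q4.FId.main

end Pool.Agent.Results.MP_93a4b1_al.NotQuasiPolynomial
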